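import Mathlib
import Pool.Agent.Helper166_PQ.Defs

/-!
# Primitive elements of right ideals, for rings in an arbitrary universe
-/

set_option autoImplicit false

namespace Pool.Agent.Helper673_PQ

open Module

universe u

/-- `f` is primitive in the right ideal `I`: it belongs to some basis of `I` as a right module. -/
def IsPrimitiveIn {A : Type u} [Ring A] (I : Submodule Aᵐᵒᵖ A) (f : A) : Prop :=
  ∃ (ι : Type u) (b : Basis ι Aᵐᵒᵖ I) (i : ι), (b i : A) = f

end Pool.Agent.Helper673_PQ
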