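import Mathlib
import Pool.Agent.Helper436.SM.RF1

/-!
# Stable finiteness of the group algebra of a free group
-/

set_option autoImplicit false

namespace Pool.Agent.Helper673_PQ


open Module

/-- finite sets of elements of a free group are separated by a homomorphism to a finite group -/
theorem aux45_sep {X : Type} [DecidableEq X] (S : Finset (FreeGroup X)) :
    ∃ (Q : Type) (_ : Group Q) (_ : Finite Q) (π : FreeGroup X →* Q),
      Set.InjOn π (S : Set (FreeGroup X)) := by
  classical
  have h : ∀ p : S × S, ∃ (m : ℕ) (θ : FreeGroup X →* Equiv.Perm (Fin m)),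
      ((p.1 : FreeGroup X)⁻¹ * (p.2 : FreeGroup X) ≠ 1 →
        θ ((p.1 : FreeGroup X)⁻¹ * (p.2 : FreeGroup X)) ≠ 1) := by
    intro p
    by_cases hp : (p.1 : FreeGroup X)⁻¹ * (p.2 : FreeGroup X) = 1
    · exact ⟨0, 1, fun h => absurd hp h⟩
    · obtain ⟨m, e, he⟩ := Pool.Agent.Helper436.SM.free_rf _ hp
      exact ⟨m, FreeGroup.lift e, fun _ => he⟩
  choose m θ hθ using h
  refine ⟨∀ p : S × S, Equiv.Perm (Fin (m p)), inferInstance, inferInstance, MonoidHom.pi θ, ?_⟩
  intro s hs t ht hst
  by_contra hne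
  have h1 : s⁻¹ * t ≠ 1 := by
    intro h
    exact hne (inv_mul_eq_one.1 h)
  have h2 := hθ (⟨s, hs⟩, ⟨t, ht⟩) h1
  apply h2
  have h3 := congrFun hst (⟨s, hs⟩, ⟨t, ht⟩)
  simp only [MonoidHom.pi_apply] at h3
  rw [map_mul, map_inv, h3, inv_mul_cancel]

/-- nonzero elements of the group algebra survive in the group algebra of a finite quotient -/
theorem aux45_detect {K : Type*} [Field K] {X : Type} [DecidableEq X]
    (a : MonoidAlgebra K (FreeGroup X)) (ha : a ≠ 0) :
    ∃ (Q : Type) (_ : Group Q) (_ : Finite Q) (π : FreeGroup X →* Q),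
      MonoidAlgebra.mapDomainRingHom K π a ≠ 0 := by
  obtain ⟨Q, hQ, hfin, π, hπ⟩ := aux45_sep a.coeff.support
  refine ⟨Q, hQ, hfin, π, ?_⟩
  intro h0
  apply ha
  have h1 : Finsupp.mapDomain π a.coeff = 0 := by
    have := congrArg MonoidAlgebra.coeff h0
    simpa using this
  have h2 := Finsupp.mapDomain_injOn (M := K) (a.coeff.support : Set (FreeGroup X)) hπ
    (show a.coeff ∈ {w : FreeGroup X →₀ K | (w.support : Set (FreeGroup X)) ⊆ (a.coeff.support : Set (FreeGroup X))} from fun x hx => hx)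
    (show (0 : FreeGroup X →₀ K) ∈ {w : FreeGroup X →₀ K | (w.support : Set (FreeGroup X)) ⊆ (a.coeff.support : Set (FreeGroup X))} by simp)
    (by rw [h1, Finsupp.mapDomain_zero])
  exact MonoidAlgebra.coeff_eq_zero.1 h2

/-- the group algebra of a finite group over a field is stably finite -/
theorem aux45_fin {K : Type*} [Field K] (Q : Type) [Group Q] [Finite Q] :
    IsStablyFiniteRing (MonoidAlgebra K Q) := by
  have : Module.Finite K (MonoidAlgebra K Q) :=
    Module.Finite.equiv (MonoidAlgebra.coeffLinearEquiv K : MonoidAlgebra K Q ≃ₗ[K] (Q →₀ K)).symm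
  have : IsNoetherianRing (MonoidAlgebra K Q) := IsNoetherianRing.of_finite K _
  infer_instance

/-- the group algebra of a free group over a field is stably finite -/
theorem aux45_free {K : Type*} [Field K] {X : Type} [DecidableEq X] :
    IsStablyFiniteRing (MonoidAlgebra K (FreeGroup X)) := by
  refine ⟨fun n => ⟨fun {A B} hAB => ?_⟩⟩
  ext1 i j
  by_contra hne
  have hne' : (B * A) i j - (1 : Matrix (Fin n) (Fin n) (MonoidAlgebra K (FreeGroup X))) i j ≠ 0 :=
    sub_ne_zero.2 hne
  obtain ⟨Q, _, _, π, hπ⟩ := aux45_detect _ hne'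
  apply hπ
  have := aux45_fin (K := K) Q
  set f := MonoidAlgebra.mapDomainRingHom K π with hf
  have h1 : f.mapMatrix A * f.mapMatrix B = 1 := by
    rw [← map_mul, hAB, map_one]
  have h2 : f.mapMatrix B * f.mapMatrix A = 1 := mul_eq_one_symm h1
  rw [← map_mul] at h2
  have h3 := congrFun (congrFun h2 i) j
  have h4 : f.mapMatrix (1 : Matrix (Fin n) (Fin n) (MonoidAlgebra K (FreeGroup X))) = 1 := map_one _
  have h5 := congrFun (congrFun h4 i) j
  rw [← h5] at h3
  simp only [RingHom.mapMatrix_apply, Matrix.map_apply] at h3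
  rw [map_sub, h3, sub_self]

/-- TARGET -/
theorem linearIndependent_of_span_eq_top {K : Type*} [Field K] {X : Type} [Fintype X] [DecidableEq X]
    (I : Submodule (MonoidAlgebra K (FreeGroup X))ᵐᵒᵖ (MonoidAlgebra K (FreeGroup X)))
    {ι : Type} [Finite ι] (b : Basis ι (MonoidAlgebra K (FreeGroup X))ᵐᵒᵖ I) (c : ι → I)
    (hc : Submodule.span (MonoidAlgebra K (FreeGroup X))ᵐᵒᵖ (Set.range c) = ⊤) :
    LinearIndependent (MonoidAlgebra K (FreeGroup X))ᵐᵒᵖ c := by
  have := aux45_free (K := K) (X := X)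
  have : Module.Free (MonoidAlgebra K (FreeGroup X))ᵐᵒᵖ I := Module.Free.of_basis b
  have : Module.Finite (MonoidAlgebra K (FreeGroup X))ᵐᵒᵖ I := Module.Finite.of_basis b
  set f : I →ₗ[(MonoidAlgebra K (FreeGroup X))ᵐᵒᵖ] I := b.constr ℕ c with hf
  have hfb : ∀ i, f (b i) = c i := fun i => b.constr_basis ℕ c i
  have hsurj : Function.Surjective f := by
    rw [← LinearMap.range_eq_top, hf, b.constr_range, hc]
  have hinj : Function.Injective f := Module.End.injective_of_surjective _ _ hsurj
  have h := b.linearIndependent.map' f (LinearMap.ker_eq_bot.2 hinj)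
  have hcomp : (f : I → I) ∘ b = c := by
    funext i
    exact hfb i
  rw [hcomp] at h
  exact h

end Pool.Agent.Helper673_PQ
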