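import Mathlib
import Pool.Agent.Helper166_PQ.Path2
import Pool.Agent.Helper166_PQ.Opt3
import Pool.Agent.Helper166_PQ.Gen
import Pool.Agent.Helper166_PQ.Pot
import Pool.Agent.Helper166_PQ.Card

/-!
# The subgroup of an optimal structure
-/

set_option autoImplicit false
set_option linter.unusedSectionVars false

namespace Pool.Agent.Helper673_PQ

open Pool.Agent.Helper166_PQ

open Module

section Final

variable {K : Type*} [Field K] {X : Type} [Fintype X] [DecidableEq X]

theorem eq_top_of_one_mem {A : Type*} [Ring A] {I : Submodule Aᵐᵒᵖ A} (h : (1 : A) ∈ I) : I = ⊤ := by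
  rw [eq_top_iff]
  intro a _
  have := mul_mem_right' h a
  rwa [one_mul] at this

/-- alternating products lie in the subgroup -/
theorem pth_mem {G : Type*} [Group G] (H : Subgroup G) (g : ℕ → G) (n : ℕ) (h : ∀ j < n, g j ∈ H)
    (j : ℕ) (hj : j ≤ n) : pth g j ∈ H := by
  induction j with
  | zero => exact H.one_mem
  | succ j ih =>
    show pth g j * _ ∈ H
    refine H.mul_mem (ih (by omega)) ?_
    split_ifs
    · exact h j (by omega)
    · exact H.inv_mem (h j (by omega))

theorem final_step {n : ℕ} (hn : 0 < n) (h2 : n % 2 = 0) (lb : ℕ → ℕ)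
    (hlb : ∀ j < n, lb j ≠ lb ((j + 1) % n)) (lam : ℕ → FreeGroup X) (m : ℕ)
    (p : Fin n → ℕ) (R : Submodule K (Fin n → K))
    (hV : Valid (cyc n h2 lb hlb)
      (MonoidAlgebra.single (pth (fun j => lam (lb j)) n) 1 - 1 : MonoidAlgebra K (FreeGroup X))
      (brp K n fun j => lam (lb j)) m p R)
    (hopt : (Finset.univ.image ((cyc n h2 lb hlb).q p)).card +
        finrank K ((cyc n h2 lb hlb).Wd p R) ≤ (Finset.univ.image p).card + finrank K R) :
    ∃ (H : Subgroup (FreeGroup X)) (hw : pth (fun j => lam (lb j)) n ∈ H),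
      (∃ t : Finset H, t.card ≤ m ∧ Subgroup.closure (t : Set H) = ⊤) ∧
      ¬ IsPrimitive (⟨pth (fun j => lam (lb j)) n, hw⟩ : H) := by
  classical
  set C := cyc n h2 lb hlb with hC
  set a : ℕ → FreeGroup X := fun j => lam (lb j) with ha
  set w := pth a n with hw
  set ω : MonoidAlgebra K (FreeGroup X) := MonoidAlgebra.single w 1 - 1 with hω
  -- the walk
  let ix : ℕ → Fin n := fun j => ⟨j % n, Nat.mod_lt _ hn⟩
  let c : ℕ → ℕ := fun j => p (ix j)
  let e : ℕ → ℕ := fun j => C.q p (ix j)
  let lamq : ℕ → FreeGroup X := fun ε => lam (Nat.unpair ε).1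
  have hix : ∀ v : Fin n, ix v.1 = v := fun v => Fin.ext (Nat.mod_eq_of_lt v.2)
  have hnx : ∀ j < n, nx (ix j) = ix (j + 1) := by
    intro j hj
    apply Fin.ext
    show (j % n + 1) % n = (j + 1) % n
    rw [Nat.mod_add_mod]
  have hknd : ∀ j < n, knd (ix j) = decide (j % 2 = 1) := by
    intro j hj
    show decide ((j % n) % 2 = 1) = _
    rw [Nat.mod_eq_of_lt hj]
  have hen : ∀ β j, C.en β (ix j) = if knd (ix j) = β then ix j else nx (ix j) := fun _ _ => rfl
  have hs : ∀ j < n, ecol false (e j) = if j % 2 = 0 then c j else c (j + 1) := by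
    intro j hj
    show ecol false (C.q p (ix j)) = _
    rw [ecol_q, hen, hknd j hj]
    by_cases h : j % 2 = 0
    · rw [if_pos h, if_pos (by simp [h])]
    · rw [if_neg h, if_neg (by simp; omega), hnx j hj]
  have ht : ∀ j < n, ecol true (e j) = if j % 2 = 0 then c (j + 1) else c j := by
    intro j hj
    show ecol true (C.q p (ix j)) = _
    rw [ecol_q, hen, hknd j hj]
    by_cases h : j % 2 = 0
    · rw [if_pos h, if_neg (by simp [h]), hnx j hj]
    · rw [if_neg h, if_pos (by simp; omega)]
  obtain ⟨P, hP0, hPcard⟩ := exists_potential n c e (ecol false) (ecol true) lamq hs ht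
  have himc : (Finset.univ.image p) ⊆ (Finset.range (n + 1)).image c := by
    intro k hk
    obtain ⟨v, _, rfl⟩ := Finset.mem_image.1 hk
    refine Finset.mem_image.2 ⟨v.1, Finset.mem_range.2 (by omega), ?_⟩
    show p (ix v.1) = p v
    rw [hix]
  have hime : (Finset.range n).image e = Finset.univ.image (C.q p) := by
    ext ε
    simp only [Finset.mem_image, Finset.mem_range, Finset.mem_univ, true_and]
    constructor
    · rintro ⟨j, hj, rfl⟩
      exact ⟨ix j, rfl⟩
    · rintro ⟨v, rfl⟩
      refine ⟨v.1, v.2, ?_⟩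
      show C.q p (ix v.1) = _
      rw [hix]
  have hcc := Finset.card_le_card himc
  rw [hime] at hPcard
  let gq : ℕ → FreeGroup X := fun ε => P (ecol false ε) * lamq ε * (P (ecol true ε))⁻¹
  set T : Finset ℕ := (Finset.univ.image (C.q p)).filter fun ε => gq ε ≠ 1 with hT
  have hTm : T.card ≤ m := by
    have h1 : T.card + ((Finset.range (n + 1)).image c).card ≤
      (Finset.univ.image (C.q p)).card + 1 := hPcard
    have h3 := hV.le_m
    omega
  let H : Subgroup (FreeGroup X) := Subgroup.closure ((T.image gq : Finset (FreeGroup X)) : Set (FreeGroup X))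
  have hgH : ∀ ε ∈ Finset.univ.image (C.q p), gq ε ∈ H := by
    intro ε hε
    by_cases h : gq ε = 1
    · rw [h]; exact H.one_mem
    · refine Subgroup.subset_closure ?_
      rw [Finset.coe_image]
      exact ⟨ε, Finset.mem_coe.2 (Finset.mem_filter.2 ⟨hε, h⟩), rfl⟩
  have heim : ∀ j < n, e j ∈ Finset.univ.image (C.q p) := by
    intro j hj
    rw [← hime]
    exact Finset.mem_image_of_mem _ (Finset.mem_range.2 hj)
  -- telescoping
  have htel : ∀ j ≤ n, pth (fun j => gq (e j)) j = pth a j * (P (c j))⁻¹ := by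
    intro j hj
    have := pth_tel a (fun j => gq (e j)) (fun j => P (c j)) n ?_ j hj
    · rw [this, hP0, one_mul]
    · intro j hj
      have h1 : lamq (e j) = a j := by
        show lam (Nat.unpair (C.q p (ix j))).1 = lam (lb j)
        have : (Nat.unpair (C.q p (ix j))).1 = lb j := by
          unfold Cyc.q
          rw [Nat.unpair_pair]
          show lb (j % n) = lb j
          rw [Nat.mod_eq_of_lt hj]
        rw [this]
      show P (ecol false (e j)) * lamq (e j) * (P (ecol true (e j)))⁻¹ = _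
      rw [hs j hj, ht j hj, h1]
      split_ifs <;> rfl
  have hwn : pth (fun j => gq (e j)) n = w := by
    rw [htel n le_rfl]
    have : c n = c 0 := by
      show p (ix n) = p (ix 0)
      congr 1
      apply Fin.ext
      show n % n = 0 % n
      rw [Nat.mod_self, Nat.zero_mod]
    rw [this, hP0, inv_one, mul_one]
  have hwH : w ∈ H := by
    rw [← hwn]
    exact pth_mem H _ n (fun j hj => hgH _ (heim j hj)) n le_rfl
  -- the generators as a finite set of elements of `H`
  let t : Finset H := (T.image gq).subtype (· ∈ H)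
  have htcard : t.card ≤ m := by
    refine le_trans ?_ hTm
    rw [Finset.card_subtype]
    exact (Finset.card_filter_le _ _).trans Finset.card_image_le
  have htcl : Subgroup.closure (t : Set H) = ⊤ := by
    have h1 := Subgroup.closure_closure_coe_preimage
      (k := ((T.image gq : Finset (FreeGroup X)) : Set (FreeGroup X)))
    rw [eq_top_iff, ← h1]
    apply Subgroup.closure_mono
    intro x hx
    exact Finset.mem_coe.2 (Finset.mem_subtype.2 hx)
  refine ⟨H, hwH, ⟨t, htcard, htcl⟩, ?_⟩
  rintro ⟨ι, b, i₀, hb⟩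
  obtain ⟨hfin, -⟩ := card_basis_le b t htcl
  have := Fintype.ofFinite ι
  -- the homomorphisms
  let ψ : FreeGroup (QC h2 lb hlb p) →* FreeGroup ι :=
    FreeGroup.lift fun ε => b.repr ⟨gq ε.1, hgH ε.1 ε.2⟩
  let θ : FreeGroup ι →* FreeGroup X := H.subtype.comp b.repr.symm.toMonoidHom
  have hθinj : Function.Injective θ := by
    intro x y hxy
    have h1 : b.repr.symm x = b.repr.symm y := Subtype.ext hxy
    exact b.repr.symm.injective h1
  have hθψ : ∀ ε : QC h2 lb hlb p, θ (ψ (FreeGroup.of ε)) = gq ε.1 := by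
    intro ε
    show ((b.repr.symm (ψ (FreeGroup.of ε)) : H) : FreeGroup X) = _
    rw [FreeGroup.lift_apply_of, MulEquiv.symm_apply_apply]
  have hθψp : ∀ j ≤ n, θ (ψ (pth (ahat h2 lb hlb p hn) j)) = pth a j * (P (c j))⁻¹ := by
    intro j hj
    rw [pth_map, pth_map, ← htel j hj]
    refine pth_congr _ _ j ?_
    intro i hi
    show θ (ψ (FreeGroup.of (qc h2 lb hlb p (ix i)))) = gq (e i)
    rw [hθψ]
    rfl
  have hθi : θ (FreeGroup.of i₀) = w := by
    show ((b.repr.symm (FreeGroup.of i₀) : H) : FreeGroup X) = w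
    have h1 : b.repr.symm (FreeGroup.of i₀) = b i₀ := rfl
    rw [h1, hb]
  have hψw : ψ (pth (ahat h2 lb hlb p hn) n) = FreeGroup.of i₀ := by
    apply hθinj
    rw [hθi, hθψp n le_rfl, ← htel n le_rfl, hwn]
  let φ₁ := MonoidAlgebra.mapDomainRingHom K ψ
  let φ₂ := MonoidAlgebra.mapDomainRingHom K θ
  have hφ₁ : ∀ g (r : K), φ₁ (MonoidAlgebra.single g r) = MonoidAlgebra.single (ψ g) r := by
    intro g r
    exact MonoidAlgebra.mapDomain_single
  have hφ₂ : ∀ g (r : K), φ₂ (MonoidAlgebra.single g r) = MonoidAlgebra.single (θ g) r := by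
    intro g r
    exact MonoidAlgebra.mapDomain_single
  obtain ⟨th, hthcard, hth⟩ := gen_le (Rhat h2 lb hlb p R hn)
  have hth2 := hh_Rhat_le h2 lb hlb p R hn
  -- evaluation of the lifted elements
  have hev : ∀ (k : ℕ) (x : Fin n → K), (∀ v, x v ≠ 0 → p v = k) →
      φ₂ (φ₁ (brp K n (ahat h2 lb hlb p hn) x)) =
        brp K n a x * MonoidAlgebra.single (P k)⁻¹ 1 := by
    intro k x hx
    rw [brp_apply, brp_apply, map_sum, map_sum, Finset.sum_mul]
    refine Finset.sum_congr rfl fun v _ => ?_
    rw [hφ₁, hφ₂, MonoidAlgebra.single_mul_single, mul_one]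
    by_cases h : x v = 0
    · rw [h, MonoidAlgebra.single_zero, MonoidAlgebra.single_zero]
    · rw [hθψp v.1 v.2.le]
      have : c v.1 = k := by
        show p (ix v.1) = k
        rw [hix, hx v h]
      rw [this]
  have hsplit : ∀ x : Fin n → K,
      x = ∑ k ∈ Finset.univ.image p, res (Finset.univ.filter fun v => p v = k) x := by
    intro x
    ext v
    rw [Finset.sum_apply, Finset.sum_eq_single (p v)]
    · rw [res_apply]
      simp
    · intro k _ hne
      rw [res_apply, if_neg]
      intro h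
      exact hne (Finset.mem_filter.1 h).2.symm
    · intro h
      exact absurd (Finset.mem_image_of_mem _ (Finset.mem_univ v)) h
  have hressupp : ∀ (k : ℕ) (x : Fin n → K) (v : Fin n),
      res (Finset.univ.filter fun v => p v = k) x v ≠ 0 → p v = k := by
    intro k x v hv
    by_contra h
    rw [res_apply, if_neg] at hv
    · exact hv rfl
    · intro h3; exact h (Finset.mem_filter.1 h3).2
  have hωim : φ₂ (φ₁ (MonoidAlgebra.single (pth (ahat h2 lb hlb p hn) n) 1 - 1)) = ω := by
    rw [map_sub, map_sub, map_one, map_one, hφ₁, hφ₂, hψw, hθi]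
  -- claim A
  have hA : ∀ y ∈ φ₁ '' (Rhat h2 lb hlb p R hn : Set (MonoidAlgebra K (FreeGroup (QC h2 lb hlb p)))),
      φ₂ y ∈ Id ω (brp K n a) R := by
    rintro _ ⟨y, hy, rfl⟩
    obtain ⟨y₁, hy₁, _, ⟨x, hx, rfl⟩, rfl⟩ := Submodule.mem_sup.1 hy
    rw [map_add, map_add]
    refine Submodule.add_mem _ ?_ ?_
    · obtain ⟨r, rfl⟩ := Submodule.mem_span_singleton.1 hy₁
      have h1 : φ₂ (φ₁ (r • (MonoidAlgebra.single (pth (ahat h2 lb hlb p hn) n) (1 : K) - 1 :
          MonoidAlgebra K (FreeGroup (QC h2 lb hlb p))))) = ω * MonoidAlgebra.single 1 r := by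
        have h3 : (r • (MonoidAlgebra.single (pth (ahat h2 lb hlb p hn) n) (1 : K) - 1 :
          MonoidAlgebra K (FreeGroup (QC h2 lb hlb p)))) =
          (MonoidAlgebra.single (pth (ahat h2 lb hlb p hn) n) (1 : K) - 1) *
            MonoidAlgebra.single 1 r := by
          rw [Algebra.smul_def, Algebra.commutes]
          rfl
        rw [h3, map_mul, map_mul, hωim, hφ₁, hφ₂, map_one, map_one]
      rw [h1]
      exact mul_mem_right' (omega_mem_Id _ _ _) _
    · rw [hsplit x, map_sum, map_sum, map_sum]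
      refine Submodule.sum_mem _ fun k _ => ?_
      rw [hev k _ (hressupp k x)]
      exact mul_mem_right' (br_mem_Id _ _ _ (hV.graded x hx k)) _
  have hB : Id ω (brp K n a) R = rI (φ₂ '' (φ₁ '' (Rhat h2 lb hlb p R hn :
      Set (MonoidAlgebra K (FreeGroup (QC h2 lb hlb p)))))) := by
    apply le_antisymm
    · refine Id_le _ _ _ ?_ ?_
      · refine subset_rI ⟨_, ⟨_, Submodule.mem_sup_left (Submodule.mem_span_singleton_self _), rfl⟩, hωim⟩
      · intro x hx
        rw [hsplit x, map_sum]
        refine Submodule.sum_mem _ fun k _ => ?_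
        have h1 : brp K n a (res (Finset.univ.filter fun v => p v = k) x) =
            φ₂ (φ₁ (brp K n (ahat h2 lb hlb p hn) (res (Finset.univ.filter fun v => p v = k) x))) *
              MonoidAlgebra.single (P k) 1 := by
          rw [hev k _ (hressupp k x), mul_assoc, MonoidAlgebra.single_mul_single, inv_mul_cancel,
            mul_one]
          exact (mul_one _).symm
        rw [h1]
        have h3 : φ₂ (φ₁ (brp K n (ahat h2 lb hlb p hn)
            (res (Finset.univ.filter fun v => p v = k) x))) ∈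
            rI (φ₂ '' (φ₁ '' (Rhat h2 lb hlb p R hn :
              Set (MonoidAlgebra K (FreeGroup (QC h2 lb hlb p)))))) :=
          subset_rI ⟨_, ⟨_, Submodule.mem_sup_right ⟨_, hV.graded x hx k, rfl⟩, rfl⟩, rfl⟩
        exact mul_mem_right' h3 _
    · refine rI_le ?_
      rintro _ ⟨y, hy, rfl⟩
      exact hA y hy
  -- the generators
  let S₁ : Finset (MonoidAlgebra K (FreeGroup ι)) := th.image φ₁
  have hS₁ : rI (S₁ : Set (MonoidAlgebra K (FreeGroup ι))) =
      rI (φ₁ '' (Rhat h2 lb hlb p R hn : Set (MonoidAlgebra K (FreeGroup (QC h2 lb hlb p))))) := by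
    rw [Finset.coe_image]
    exact rI_image_eq φ₁ hth
  have hy : (MonoidAlgebra.single (FreeGroup.of i₀) (1 : K) - 1 : MonoidAlgebra K (FreeGroup ι)) ∈
      rI (S₁ : Set (MonoidAlgebra K (FreeGroup ι))) := by
    rw [hS₁]
    refine subset_rI ⟨_, Submodule.mem_sup_left (Submodule.mem_span_singleton_self _), ?_⟩
    rw [map_sub, map_one, hφ₁, hψw]
  have hS : rI (S₁ : Set (MonoidAlgebra K (FreeGroup ι))) ≠ ⊤ := by
    intro htop
    apply hV.ne_top
    apply eq_top_of_one_mem
    have h1 : (1 : MonoidAlgebra K (FreeGroup ι)) ∈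
      rI (φ₁ '' (Rhat h2 lb hlb p R hn : Set (MonoidAlgebra K (FreeGroup (QC h2 lb hlb p))))) := by
      rw [← hS₁, htop]
      exact Submodule.mem_top
    have h3 := map_mem_rI φ₂ hA 1 h1
    rwa [map_one] at h3
  obtain ⟨t₂, ht₂, hI₂⟩ := letter_primitive S₁ i₀ hy hS
  have hgw := hV.lt_gw (t₂.image φ₂).card ⟨t₂.image φ₂, le_rfl, ?_⟩
  · have h4 : (t₂.image φ₂).card ≤ t₂.card := Finset.card_image_le
    have h5 : S₁.card ≤ th.card := Finset.card_image_le
    have h6 : (th.card : ℤ) ≤ (finrank K R : ℤ) + 1 - finrank K (C.Wd p R) := hthcard.trans hth2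
    omega
  · rw [hB, ← rI_image_eq φ₂ hS₁, ← rI_image_eq φ₂ hI₂, Finset.coe_image, Set.image_insert_eq]
    congr 2
    rw [map_sub, map_one, hφ₂, hθi]

end Final

end Pool.Agent.Helper673_PQ
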