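import Mathlib
import Pool.Agent.Helper166_PQ.Path4

/-!
# The initial structure, continued
-/

set_option autoImplicit false
set_option linter.unusedSectionVars false

namespace Pool.Agent.Helper673_PQ

open Pool.Agent.Helper166_PQ

open Module

section Coeff

variable {K : Type*} [Field K] {G : Type*} [Group G] {n : ℕ}

theorem coeff_brp_res_in (a : ℕ → G) (S : Finset (Fin n))
    (hS : ∀ v ∈ S, ∀ v' ∈ S, pth a v.1 = pth a v'.1 → v = v') (x : Fin n → K) {v : Fin n}
    (hv : v ∈ S) : (brp K n a (res S x)).coeff (pth a v.1) = x v := by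
  classical
  rw [brp_apply, MonoidAlgebra.coeff_sum, Finsupp.finsetSum_apply, Finset.sum_eq_single v]
  · rw [MonoidAlgebra.coeff_single, Finsupp.single_apply, if_pos rfl, res_apply, if_pos hv]
  · intro v' _ hne
    rw [MonoidAlgebra.coeff_single, Finsupp.single_apply, res_apply]
    by_cases h : v' ∈ S
    · rw [if_neg]
      intro h3
      exact hne (hS v' h v hv h3)
    · rw [if_neg h]; simp
  · intro h3; exact absurd (Finset.mem_univ v) h3

theorem coeff_brp_res_out (a : ℕ → G) (S : Finset (Fin n)) (x : Fin n → K) {g : G}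
    (hg : ∀ v ∈ S, pth a v.1 ≠ g) : (brp K n a (res S x)).coeff g = 0 := by
  classical
  rw [brp_apply, MonoidAlgebra.coeff_sum, Finsupp.finsetSum_apply]
  refine Finset.sum_eq_zero fun v _ => ?_
  rw [MonoidAlgebra.coeff_single, Finsupp.single_apply, res_apply]
  by_cases h : v ∈ S
  · rw [if_neg (hg v h)]
  · rw [if_neg h]; simp

end Coeff

section Init

variable {K : Type*} [Field K] {X : Type} [Fintype X] [DecidableEq X] [Encodable X]
  (z : ℕ → X × Bool) (l : ℕ) (hz : ∀ i < l, z ((i + 1) % l) ≠ nv (z i))

/-- the cycle of a cyclic word -/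
def cz : Cyc (Fin (2 * l)) (Fin (2 * l)) := cyc (2 * l) (by omega) (lbz z) (hlbz z l hz)

/-- the even vertices -/
def Evn : Finset (Fin (2 * l)) := Finset.univ.filter fun v => v.1 % 2 = 0

/-- the midpoints of the edges of the generator `y` -/
def Md (y : X) : Finset (Fin (2 * l)) :=
  Finset.univ.filter fun v => v.1 % 2 = 1 ∧ (z (v.1 / 2)).1 = y

theorem mem_Evn {v : Fin (2 * l)} : v ∈ Evn l ↔ v.1 % 2 = 0 := by simp [Evn]

theorem mem_Md {y : X} {v : Fin (2 * l)} : v ∈ Md z l y ↔ v.1 % 2 = 1 ∧ (z (v.1 / 2)).1 = y := by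
  simp [Md]

/-- the initial subspace -/
noncomputable def R0 (R' : Submodule K (MonoidAlgebra K (FreeGroup X))) :
    Submodule K (Fin (2 * l) → K) :=
  R'.comap (brp K (2 * l) (az z) ∘ₗ res (Evn l)) ⊓
    ⨅ y : X, (Ex R' (FreeGroup.of y)).comap (brp K (2 * l) (az z) ∘ₗ res (Md z l y))

variable {R' : Submodule K (MonoidAlgebra K (FreeGroup X))}

theorem mem_R0 {x : Fin (2 * l) → K} : x ∈ R0 z l R' ↔
    brp K (2 * l) (az z) (res (Evn l) x) ∈ R' ∧
      ∀ y, brp K (2 * l) (az z) (res (Md z l y) x) ∈ Ex R' (FreeGroup.of y) := by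
  unfold R0
  rw [Submodule.mem_inf, Submodule.mem_iInf]
  rfl

include hz

theorem Evn_inj : ∀ v ∈ Evn l, ∀ v' ∈ Evn l, pth (az z) v.1 = pth (az z) v'.1 → v = v' := by
  intro v hv v' hv' h
  rw [mem_Evn] at hv hv'
  have h1 : v.1 = 2 * (v.1 / 2) := by omega
  have h2 : v'.1 = 2 * (v'.1 / 2) := by omega
  rw [h1, h2, pth_even, pth_even] at h
  have hv2 := v.2
  have hv2' := v'.2
  have := uu_inj z l hz (by omega) (by omega) h
  exact Fin.ext (by omega)

theorem Md_inj (y : X) : ∀ v ∈ Md z l y, ∀ v' ∈ Md z l y,
    pth (az z) v.1 = pth (az z) v'.1 → v = v' := by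
  intro v hv v' hv' h
  rw [mem_Md] at hv hv'
  have h1 : v.1 = 2 * (v.1 / 2) + 1 := by omega
  have h2 : v'.1 = 2 * (v'.1 / 2) + 1 := by omega
  rw [h1, h2] at h
  have hv2 := v.2
  have hv2' := v'.2
  have := odd_inj z l hz (i := v.1 / 2) (j := v'.1 / 2) (by omega) (by omega)
    (by rw [hv.2, hv'.2]) h
  exact Fin.ext (by omega)

theorem supp_Md (hR : ∀ a ∈ R', SuppOn (TT z l : Set (FreeGroup X)) a) {y : X}
    {b : MonoidAlgebra K (FreeGroup X)} (hb : b ∈ Ex R' (FreeGroup.of y)) {g : FreeGroup X}
    (hg : b.coeff g ≠ 0) : ∃ v ∈ Md z l y, pth (az z) v.1 = g := by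
  have h1 : g ∈ (TT z l : Set (FreeGroup X)) := hR b hb.1 g hg
  have h2 : g * FreeGroup.of y ∈ (TT z l : Set (FreeGroup X)) := by
    refine hR _ hb.2 _ ?_
    show (b * MonoidAlgebra.single (FreeGroup.of y) (1 : K)).coeff (g * FreeGroup.of y) ≠ 0
    rw [MonoidAlgebra.coeff_mul_single_apply]
    simpa using hg
  obtain ⟨i, hi, rfl⟩ := Finset.mem_image.1 h1
  obtain ⟨j, hj, hij⟩ := Finset.mem_image.1 h2
  rw [Finset.mem_range] at hi hj
  obtain ⟨k, hk, hky, hkg⟩ := exists_edge z l hz (i := i) (j := j) (by omega) (by omega) y hij.symm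
  refine ⟨⟨2 * k + 1, by omega⟩, ?_, hkg⟩
  rw [mem_Md]
  refine ⟨by show (2 * k + 1) % 2 = 1; omega, ?_⟩
  show (z ((2 * k + 1) / 2)).1 = y
  rw [show (2 * k + 1) / 2 = k by omega, hky]

/-- edge relations from an element of the group algebra -/
noncomputable def rho (c : X × Bool) : MonoidAlgebra K (FreeGroup X) →ₗ[K] (Fin (2 * l) → K) where
  toFun b e := if ltr z e.1 = c then b.coeff (pth (az z) ((cz z l hz).en true e).1) else 0
  map_add' a b := by
    ext e
    simp only [Pi.add_apply]
    split_ifs <;> simp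
  map_smul' r b := by
    ext e
    simp only [Pi.smul_apply, RingHom.id_apply]
    split_ifs <;> simp

theorem rho_apply (c : X × Bool) (b : MonoidAlgebra K (FreeGroup X)) (e : Fin (2 * l)) :
    rho z l hz c b e =
      if ltr z e.1 = c then b.coeff (pth (az z) ((cz z l hz).en true e).1) else 0 := rfl

theorem en_true_val (e : Fin (2 * l)) :
    ((cz z l hz).en true e).1 = if e.1 % 2 = 1 then e.1 else e.1 + 1 := by
  show (if knd e = true then e else nx e).1 = _
  have he := e.2
  by_cases h : e.1 % 2 = 1
  · rw [if_pos h, if_pos (by simp [knd, h])]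
  · rw [if_neg h, if_neg (by simp [knd, h]), nx_val, if_pos (by omega)]

theorem lab_cz (e : Fin (2 * l)) : (cz z l hz).lab e = Encodable.encode (ltr z e.1) := rfl

theorem P_true_rho (c : X × Bool) (b : MonoidAlgebra K (FreeGroup X)) :
    (cz z l hz).P true (rho z l hz c b) =
      res (Md z l c.1) fun v => b.coeff (pth (az z) v.1) := by
  ext v
  have hv2 := v.2
  rw [Cyc.P_apply, res_apply]
  by_cases h : v ∈ Md z l c.1
  · rw [if_pos h]
    rw [mem_Md] at h
    obtain ⟨e, he1, he2⟩ : ∃ e : Fin (2 * l), (cz z l hz).en true e = v ∧ ltr z e.1 = c := by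
      by_cases hc : c.2 = (z (v.1 / 2)).2
      · refine ⟨⟨v.1 - 1, by omega⟩, ?_, ?_⟩
        · apply Fin.ext
          rw [en_true_val]
          show (if (v.1 - 1) % 2 = 1 then v.1 - 1 else v.1 - 1 + 1) = v.1
          rw [if_neg (by omega)]
          omega
        · show ltr z (v.1 - 1) = c
          unfold ltr
          rw [if_pos (by omega), show (v.1 - 1) / 2 = v.1 / 2 by omega]
          exact Prod.ext h.2 hc.symm
      · refine ⟨v, ?_, ?_⟩
        · apply Fin.ext
          rw [en_true_val, if_pos h.1]
        · unfold ltr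
          rw [if_neg (by omega)]
          refine Prod.ext h.2 ?_
          show (!(z (v.1 / 2)).2) = c.2
          revert hc
          cases c.2 <;> cases (z (v.1 / 2)).2 <;> simp
    rw [Finset.sum_eq_single e]
    · rw [if_pos he1, rho_apply, if_pos he2, he1]
    · intro e' _ hne
      split_ifs with h3
      · rw [rho_apply, if_neg]
        intro h4
        apply hne
        refine (cz z l hz).en_inj (β := true) ?_ (h3.trans he1.symm)
        rw [lab_cz, lab_cz, h4, he2]
      · rfl
    · intro h3; exact absurd (Finset.mem_univ e) h3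
  · rw [if_neg h]
    refine Finset.sum_eq_zero fun e _ => ?_
    split_ifs with h3
    · rw [rho_apply, if_neg]
      intro h4
      apply h
      have h5 : v.1 = if e.1 % 2 = 1 then e.1 else e.1 + 1 := by rw [← h3, en_true_val]
      have h6 : v.1 % 2 = 1 ∧ e.1 / 2 = v.1 / 2 := by
        split_ifs at h5 with h7 <;> omega
      rw [mem_Md]
      refine ⟨h6.1, ?_⟩
      rw [← h6.2, ← ltr_fst, h4]
    · rfl

theorem brp_P_true_rho (hR : ∀ a ∈ R', SuppOn (TT z l : Set (FreeGroup X)) a) (c : X × Bool)
    {b : MonoidAlgebra K (FreeGroup X)} (hb : b ∈ Ex R' (FreeGroup.of c.1)) :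
    brp K (2 * l) (az z) ((cz z l hz).P true (rho z l hz c b)) = b := by
  rw [P_true_rho]
  ext g
  by_cases h : ∃ v ∈ Md z l c.1, pth (az z) v.1 = g
  · obtain ⟨v, hv, rfl⟩ := h
    rw [coeff_brp_res_in (az z) _ (Md_inj z l hz c.1) _ hv]
  · rw [coeff_brp_res_out]
    · by_contra h3
      exact h (supp_Md z l hz hR hb (Ne.symm h3))
    · intro v hv h3
      exact h ⟨v, hv, h3⟩

theorem P_true_mem (hR : ∀ a ∈ R', SuppOn (TT z l : Set (FreeGroup X)) a) (c : X × Bool)
    {b : MonoidAlgebra K (FreeGroup X)} (hb : b ∈ Ex R' (FreeGroup.of c.1)) :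
    (cz z l hz).P true (rho z l hz c b) ∈ R0 z l R' := by
  have h0 := brp_P_true_rho z l hz hR c hb
  rw [P_true_rho] at h0 ⊢
  rw [mem_R0]
  constructor
  · have : res (Evn l) (res (Md z l c.1) fun v => b.coeff (pth (az z) v.1)) = 0 := by
      ext v
      rw [res_apply, res_apply]
      split_ifs with h1 h2
      · rw [mem_Evn] at h1
        rw [mem_Md] at h2
        omega
      · rfl
      · rfl
    rw [this, map_zero]
    exact Submodule.zero_mem _
  · intro y
    by_cases hy : y = c.1
    · rw [hy, res_res, Finset.inter_self, h0]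
      exact hb
    · have : res (Md z l y) (res (Md z l c.1) fun v => b.coeff (pth (az z) v.1)) = 0 := by
        ext v
        rw [res_apply, res_apply]
        split_ifs with h1 h2
        · rw [mem_Md] at h1 h2
          exact absurd (h1.2.symm.trans h2.2) hy
        · rfl
        · rfl
      rw [this, map_zero]
      exact Submodule.zero_mem _

theorem P_false_mem (hR : ∀ a ∈ R', SuppOn (TT z l : Set (FreeGroup X)) a)
    (hω : (MonoidAlgebra.single (pth (az z) (2 * l)) 1 - 1 : MonoidAlgebra K (FreeGroup X)) ∈ R')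
    (c : X × Bool)
    {b : MonoidAlgebra K (FreeGroup X)} (hb : b ∈ Ex R' (FreeGroup.of c.1)) :
    (cz z l hz).P false (rho z l hz c b) ∈ R0 z l R' := by
  have h0 := brp_P_true_rho z l hz hR c hb
  have hkind : ∀ v, (cz z l hz).kind v = decide (v.1 % 2 = 1) := fun _ => rfl
  have hodd : ∀ v : Fin (2 * l), v.1 % 2 = 1 → (cz z l hz).P false (rho z l hz c b) v = 0 := by
    intro v hv
    apply Cyc.P_supp_kind
    rw [hkind]
    simp [hv]
  rw [mem_R0]
  constructor
  · have h1 : res (Evn l) ((cz z l hz).P false (rho z l hz c b)) =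
        (cz z l hz).P false (rho z l hz c b) := by
      ext v
      rw [res_apply]
      split_ifs with h
      · rfl
      · rw [mem_Evn] at h
        rw [hodd v (by omega)]
    rw [h1]
    have h2 : Tm (by omega : 2 * l % 2 = 0) (lbz z) (hlbz z l hz) (az z) (rho z l hz c b) *
        MonoidAlgebra.single (lamL c) 1 = brp K (2 * l) (az z) ((cz z l hz).P true (rho z l hz c b)) := by
      refine Tm_mul _ _ _ _ _ _ ?_
      intro e he
      rw [az_apply]
      rw [rho_apply] at he
      by_cases h : ltr z e.1 = c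
      · rw [h]
      · rw [if_neg h] at he
        exact absurd rfl he
    rw [h0] at h2
    have h3 : brp K (2 * l) (az z) ((cz z l hz).P false (rho z l hz c b)) =
        b * MonoidAlgebra.single (lamL c)⁻¹ 1 - ∑ e, rho z l hz c b e • dz K (2 * l) (az z) e := by
      have h6 := congrArg (fun x => x * MonoidAlgebra.single (lamL c)⁻¹ (1 : K)) h2
      rw [mul_assoc, MonoidAlgebra.single_mul_single, mul_inv_cancel, mul_one, Tm_apply] at h6
      have h4 : (MonoidAlgebra.single (1 : FreeGroup X) (1 : K)) = 1 := rfl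
      rw [h4, mul_one] at h6
      rw [← h6]
      have h5 : cyc (2 * l) (by omega : 2 * l % 2 = 0) (lbz z) (hlbz z l hz) = cz z l hz := rfl
      rw [h5, add_sub_cancel_right]
    rw [h3]
    refine Submodule.sub_mem _ ?_ ?_
    · unfold lamL
      split_ifs
      · rw [inv_one]
        have h4 : (MonoidAlgebra.single (1 : FreeGroup X) (1 : K)) = 1 := rfl
        rw [h4, mul_one]
        exact hb.1
      · rw [inv_inv]
        exact hb.2
    · refine Submodule.sum_mem _ fun e _ => Submodule.smul_mem _ _ ?_
      unfold dz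
      split_ifs
      · exact Submodule.zero_mem _
      · exact hω
  · intro y
    have : res (Md z l y) ((cz z l hz).P false (rho z l hz c b)) = 0 := by
      ext v
      rw [res_apply]
      split_ifs with h
      · rw [mem_Md] at h
        rw [hodd v h.1]; rfl
      · rfl
    rw [this, map_zero]
    exact Submodule.zero_mem _

/-- the initial colouring -/
def p0 (v : Fin (2 * l)) : ℕ := v.1 % 2

theorem q_p0 (e e' : Fin (2 * l)) : (cz z l hz).q (p0 l) e = (cz z l hz).q (p0 l) e' ↔
    ltr z e.1 = ltr z e'.1 := by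
  constructor
  · intro h
    exact Encodable.encode_injective ((cz z l hz).q_lab h)
  · intro h
    have hk : ∀ β e, p0 l ((cz z l hz).en β e) = if β then 1 else 0 := by
      intro β e
      have h1 : decide (((cz z l hz).en β e).1 % 2 = 1) = β := (cz z l hz).kind_en β e
      unfold p0
      cases β
      · have : ¬ (((cz z l hz).en false e).1 % 2 = 1) := by simpa using h1
        simp only [Bool.false_eq_true, if_false]
        omega
      · have : (((cz z l hz).en true e).1 % 2 = 1) := by simpa using h1
        simpa using this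
    unfold Cyc.q
    rw [hk, hk, hk, hk, lab_cz, lab_cz, h]

theorem rho_mem (hR : ∀ a ∈ R', SuppOn (TT z l : Set (FreeGroup X)) a)
    (hω : (MonoidAlgebra.single (pth (az z) (2 * l)) 1 - 1 : MonoidAlgebra K (FreeGroup X)) ∈ R')
    (c : X × Bool)
    {b : MonoidAlgebra K (FreeGroup X)} (hb : b ∈ Ex R' (FreeGroup.of c.1)) :
    rho z l hz c b ∈ (cz z l hz).Wd (p0 l) (R0 z l R') := by
  rw [Cyc.mem_Wd]
  intro ε β
  have hP : (cz z l hz).P β (rho z l hz c b) ∈ R0 z l R' := by
    cases β
    · exact P_false_mem z l hz hR hω c hb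
    · exact P_true_mem z l hz hR c hb
  by_cases h : ∃ e, (cz z l hz).q (p0 l) e = ε ∧ ltr z e.1 = c
  · obtain ⟨e₀, he₀, he₀'⟩ := h
    have : res ((cz z l hz).cls (p0 l) ε) (rho z l hz c b) = rho z l hz c b := by
      ext e
      rw [res_apply]
      split_ifs with h1
      · rfl
      · rw [rho_apply, if_neg]
        intro h3
        apply h1
        rw [Cyc.mem_cls, ← he₀, q_p0, h3, he₀']
    rw [this]
    exact hP
  · have : res ((cz z l hz).cls (p0 l) ε) (rho z l hz c b) = 0 := by
      ext e
      rw [res_apply]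
      split_ifs with h1
      · rw [rho_apply, if_neg]
        · rfl
        · intro h3
          exact h ⟨e, (cz z l hz).mem_cls.1 h1, h3⟩
      · rfl
    rw [this, map_zero]
    exact Submodule.zero_mem _

/-- the lower bound for the edge relations -/
theorem le_finrank_Wd (hR : ∀ a ∈ R', SuppOn (TT z l : Set (FreeGroup X)) a)
    [FiniteDimensional K R']
    (hω : (MonoidAlgebra.single (pth (az z) (2 * l)) 1 - 1 : MonoidAlgebra K (FreeGroup X)) ∈ R') :
    2 * ∑ y : X, finrank K (Ex R' (FreeGroup.of y)) ≤
      finrank K ((cz z l hz).Wd (p0 l) (R0 z l R')) := by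
  have hfin : ∀ y : X, FiniteDimensional K (Ex R' (FreeGroup.of y)) := by
    intro y; unfold Ex; infer_instance
  let Ψ : ((c : X × Bool) → Ex R' (FreeGroup.of c.1)) →ₗ[K]
      (cz z l hz).Wd (p0 l) (R0 z l R') :=
    LinearMap.codRestrict _ (∑ c : X × Bool, (rho z l hz c ∘ₗ Submodule.subtype _) ∘ₗ
      LinearMap.proj c) (by
      intro f
      rw [LinearMap.sum_apply]
      refine Submodule.sum_mem _ fun c _ => ?_
      exact rho_mem z l hz hR hω c (f c).2)
  have hinj : Function.Injective Ψ := by
    rw [← LinearMap.ker_eq_bot, LinearMap.ker_eq_bot']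
    intro f hf
    have h1 : (∑ c : X × Bool, (rho z l hz c ∘ₗ Submodule.subtype _) ∘ₗ LinearMap.proj c :
      ((c : X × Bool) → Ex R' (FreeGroup.of c.1)) →ₗ[K] (Fin (2 * l) → K)) f = 0 :=
      congrArg Subtype.val hf
    rw [LinearMap.sum_apply] at h1
    funext c
    apply Subtype.ext
    rw [← brp_P_true_rho z l hz hR c (f c).2]
    have h3 : rho z l hz c (f c : MonoidAlgebra K (FreeGroup X)) = 0 := by
      ext e
      have h2 := congrFun h1 e
      rw [Finset.sum_apply] at h2
      by_cases h : ltr z e.1 = c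
      · rw [Finset.sum_eq_single c] at h2
        · exact h2
        · intro c' _ hne
          show rho z l hz c' (f c' : MonoidAlgebra K (FreeGroup X)) e = 0
          rw [rho_apply, if_neg]
          intro h4
          exact hne (h4.symm.trans h)
        · intro h4; exact absurd (Finset.mem_univ c) h4
      · rw [rho_apply, if_neg h]; rfl
    rw [h3, map_zero, map_zero]
    rfl
  have h := LinearMap.finrank_le_finrank_of_injective hinj
  rw [Module.finrank_pi_fintype, Fintype.sum_prod_type] at h
  rw [Finset.mul_sum]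
  refine le_trans (le_of_eq ?_) h
  refine Finset.sum_congr rfl fun y _ => ?_
  rw [Fintype.sum_bool, two_mul]

/-- the part of `R'` without the coefficient at the end of the path -/
def R1 (R' : Submodule K (MonoidAlgebra K (FreeGroup X))) :
    Submodule K (MonoidAlgebra K (FreeGroup X)) where
  carrier := {b | b ∈ R' ∧ b.coeff (uu z l) = 0}
  zero_mem' := ⟨R'.zero_mem, rfl⟩
  add_mem' := fun {a b} ha hb => ⟨R'.add_mem ha.1 hb.1, by
    rw [MonoidAlgebra.coeff_add, Finsupp.add_apply, ha.2, hb.2, add_zero]⟩
  smul_mem' := fun c a ha => ⟨R'.smul_mem c ha.1, by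
    rw [MonoidAlgebra.coeff_smul, Finsupp.smul_apply, ha.2, smul_zero]⟩

omit hz in
theorem R1_le : R1 z l R' ≤ R' := fun _ h => h.1

/-- the upper bound for the initial subspace -/
theorem finrank_R0_le [FiniteDimensional K R'] :
    finrank K (R0 z l R') ≤ finrank K (R1 z l R') + ∑ y : X, finrank K (Ex R' (FreeGroup.of y)) := by
  have hfin : ∀ y : X, FiniteDimensional K (Ex R' (FreeGroup.of y)) := by
    intro y; unfold Ex; infer_instance
  have hfin1 : FiniteDimensional K (R1 z l R') :=
    Submodule.finiteDimensional_of_le (R1_le z l)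
  let Φ : R0 z l R' →ₗ[K] R1 z l R' × ((y : X) → Ex R' (FreeGroup.of y)) :=
    LinearMap.prod
      (LinearMap.codRestrict _ ((brp K (2 * l) (az z) ∘ₗ res (Evn l)) ∘ₗ Submodule.subtype _) (by
        intro x
        refine ⟨((mem_R0 z l).1 x.2).1, ?_⟩
        show (brp K (2 * l) (az z) (res (Evn l) x.1)).coeff (uu z l) = 0
        rw [coeff_brp_res_out]
        intro v hv h
        rw [mem_Evn] at hv
        have hv2 := v.2
        rw [show v.1 = 2 * (v.1 / 2) by omega, pth_even] at h
        have := uu_inj z l hz (by omega) (by omega) h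
        omega))
      (LinearMap.pi fun y => LinearMap.codRestrict _
        ((brp K (2 * l) (az z) ∘ₗ res (Md z l y)) ∘ₗ Submodule.subtype _) (by
        intro x
        exact ((mem_R0 z l).1 x.2).2 y))
  have hinj : Function.Injective Φ := by
    rw [← LinearMap.ker_eq_bot, LinearMap.ker_eq_bot']
    intro x hx
    have h1 : brp K (2 * l) (az z) (res (Evn l) x.1) = 0 :=
      congrArg Subtype.val (congrArg Prod.fst hx)
    have h2 : ∀ y, brp K (2 * l) (az z) (res (Md z l y) x.1) = 0 := fun y =>
      congrArg Subtype.val (congrFun (congrArg Prod.snd hx) y)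
    ext v
    show x.1 v = 0
    by_cases hv : v.1 % 2 = 0
    · rw [← coeff_brp_res_in (az z) (Evn l) (Evn_inj z l hz) x.1 ((mem_Evn l).2 hv), h1]
      rfl
    · have hv' : v ∈ Md z l (z (v.1 / 2)).1 := (mem_Md z l).2 ⟨by omega, rfl⟩
      rw [← coeff_brp_res_in (az z) (Md z l (z (v.1 / 2)).1) (Md_inj z l hz _) x.1 hv', h2]
      rfl
  have h := LinearMap.finrank_le_finrank_of_injective hinj
  rw [Module.finrank_prod, Module.finrank_pi_fintype] at h
  exact h

theorem finrank_R1_lt (hl : 0 < l) [FiniteDimensional K R']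
    (hω : (MonoidAlgebra.single (uu z l) 1 - 1 : MonoidAlgebra K (FreeGroup X)) ∈ R') :
    finrank K (R1 z l R') < finrank K R' := by
  refine Submodule.finrank_lt_finrank_of_lt (lt_of_le_of_ne (R1_le z l) ?_)
  intro h
  have h1 : (MonoidAlgebra.single (uu z l) 1 - 1 : MonoidAlgebra K (FreeGroup X)) ∈ R1 z l R' := by
    rw [h]; exact hω
  have h2 := h1.2
  have h3 : uu z l ≠ 1 := by
    intro h3
    have h4 : uu z 0 = 1 := rfl
    have := uu_inj z l hz (i := l) (j := 0) le_rfl (by omega) (h3.trans h4.symm)
    omega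
  rw [MonoidAlgebra.coeff_sub, Finsupp.sub_apply, MonoidAlgebra.coeff_single,
    MonoidAlgebra.one_def, MonoidAlgebra.coeff_single, Finsupp.single_eq_same,
    Finsupp.single_apply, if_neg h3.symm, sub_zero] at h2
  exact one_ne_zero h2

/-- the right ideal of the initial subspace -/
theorem Id_R0 (hl : 0 < l) (hR : ∀ a ∈ R', SuppOn (TT z l : Set (FreeGroup X)) a)
    (hω : (MonoidAlgebra.single (uu z l) 1 - 1 : MonoidAlgebra K (FreeGroup X)) ∈ R') :
    Id (MonoidAlgebra.single (uu z l) 1 - 1 : MonoidAlgebra K (FreeGroup X))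
      (brp K (2 * l) (az z)) (R0 z l R') = rI (R' : Set (MonoidAlgebra K (FreeGroup X))) := by
  have h3 : uu z l ≠ 1 := by
    intro h3
    have h4 : uu z 0 = 1 := rfl
    have := uu_inj z l hz (i := l) (j := 0) le_rfl (by omega) (h3.trans h4.symm)
    omega
  apply le_antisymm
  · refine Id_le _ _ _ (subset_rI hω) ?_
    intro x hx
    obtain ⟨h1, h2⟩ := (mem_R0 z l).1 hx
    have hsplit : x = res (Evn l) x + ∑ y : X, res (Md z l y) x := by
      ext v
      rw [Pi.add_apply, Finset.sum_apply, res_apply]
      by_cases hv : v.1 % 2 = 0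
      · rw [if_pos ((mem_Evn l).2 hv), Finset.sum_eq_zero, add_zero]
        intro y _
        rw [res_apply, if_neg]
        intro h
        rw [mem_Md] at h
        omega
      · rw [if_neg (fun h => hv ((mem_Evn l).1 h)), zero_add, Finset.sum_eq_single (z (v.1 / 2)).1]
        · rw [res_apply, if_pos ((mem_Md z l).2 ⟨by omega, rfl⟩)]
        · intro y _ hy
          rw [res_apply, if_neg]
          intro h
          exact hy ((mem_Md z l).1 h).2.symm
        · intro h; exact absurd (Finset.mem_univ _) h
    rw [hsplit, map_add, map_sum]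
    refine Submodule.add_mem _ (subset_rI h1) (Submodule.sum_mem _ fun y _ => subset_rI (h2 y).1)
  · refine rI_le ?_
    intro b hb
    have hb' : b - b.coeff (uu z l) • (MonoidAlgebra.single (uu z l) 1 - 1 :
        MonoidAlgebra K (FreeGroup X)) ∈ R' := R'.sub_mem hb (R'.smul_mem _ hω)
    set b' := b - b.coeff (uu z l) • (MonoidAlgebra.single (uu z l) 1 - 1 :
        MonoidAlgebra K (FreeGroup X)) with hb'def
    have h0 : b'.coeff (uu z l) = 0 := by
      rw [hb'def, MonoidAlgebra.coeff_sub, Finsupp.sub_apply, MonoidAlgebra.coeff_smul,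
        Finsupp.smul_apply, MonoidAlgebra.coeff_sub, Finsupp.sub_apply, MonoidAlgebra.coeff_single,
        MonoidAlgebra.one_def, MonoidAlgebra.coeff_single, Finsupp.single_eq_same,
        Finsupp.single_apply, if_neg h3.symm, sub_zero, smul_eq_mul, mul_one, sub_self]
    have hx : brp K (2 * l) (az z) (res (Evn l) fun v => b'.coeff (pth (az z) v.1)) = b' := by
      ext g
      by_cases h : ∃ v ∈ Evn l, pth (az z) v.1 = g
      · obtain ⟨v, hv, rfl⟩ := h
        rw [coeff_brp_res_in (az z) _ (Evn_inj z l hz) _ hv]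
      · rw [coeff_brp_res_out]
        · by_contra h4
          have h5 := hR b' hb' g (Ne.symm h4)
          obtain ⟨i, hi, rfl⟩ := Finset.mem_image.1 h5
          rw [Finset.mem_range] at hi
          by_cases hil : i = l
          · rw [hil] at h4
            exact h4 h0.symm
          · apply h
            refine ⟨⟨2 * i, by omega⟩, (mem_Evn l).2 (by show 2 * i % 2 = 0; omega), ?_⟩
            exact pth_even z i
        · intro v hv h3
          exact h ⟨v, hv, h3⟩
    have hmem : (res (Evn l) fun v => b'.coeff (pth (az z) v.1)) ∈ R0 z l R' := by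
      rw [mem_R0]
      constructor
      · rw [res_res, Finset.inter_self, hx]
        exact hb'
      · intro y
        have : res (Md z l y) (res (Evn l) fun v => b'.coeff (pth (az z) v.1)) = 0 := by
          ext v
          rw [res_apply, res_apply]
          split_ifs with h1 h2
          · rw [mem_Md] at h1
            rw [mem_Evn] at h2
            omega
          · rfl
          · rfl
        rw [this, map_zero]
        exact Submodule.zero_mem _
    have h6 : b = b' + b.coeff (uu z l) • (MonoidAlgebra.single (uu z l) 1 - 1 :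
        MonoidAlgebra K (FreeGroup X)) := by rw [hb'def]; abel
    rw [h6]
    refine Submodule.add_mem _ ?_ (smul_mem_rI _ (omega_mem_Id _ _ _))
    rw [← hx]
    exact br_mem_Id _ _ _ hmem

theorem kinded_p0 : (cz z l hz).Kinded (p0 l) := by
  intro v v' h
  show decide (v.1 % 2 = 1) = decide (v'.1 % 2 = 1)
  have : v.1 % 2 = v'.1 % 2 := h
  rw [this]

omit hz in
theorem graded_p0 : Graded (p0 l) (R0 z l R') := by
  intro x hx k
  obtain ⟨h1, h2⟩ := (mem_R0 z l).1 hx
  rw [mem_R0]
  constructor
  · by_cases hk : k = 0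
    · have : res (Evn l) (res (Finset.univ.filter fun v => p0 l v = k) x) = res (Evn l) x := by
        refine res_of_subset ?_ x
        intro v hv
        rw [mem_Evn] at hv
        exact Finset.mem_filter.2 ⟨Finset.mem_univ _, hv.trans hk.symm⟩
      rw [this]
      exact h1
    · have : res (Evn l) (res (Finset.univ.filter fun v => p0 l v = k) x) = 0 := by
        ext v
        rw [res_apply, res_apply]
        split_ifs with h3 h4
        · rw [mem_Evn] at h3
          exact absurd ((Finset.mem_filter.1 h4).2.symm.trans h3) hk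
        · rfl
        · rfl
      rw [this, map_zero]
      exact Submodule.zero_mem _
  · intro y
    by_cases hk : k = 1
    · have : res (Md z l y) (res (Finset.univ.filter fun v => p0 l v = k) x) = res (Md z l y) x := by
        refine res_of_subset ?_ x
        intro v hv
        rw [mem_Md] at hv
        exact Finset.mem_filter.2 ⟨Finset.mem_univ _, hv.1.trans hk.symm⟩
      rw [this]
      exact h2 y
    · have : res (Md z l y) (res (Finset.univ.filter fun v => p0 l v = k) x) = 0 := by
        ext v
        rw [res_apply, res_apply]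
        split_ifs with h3 h4
        · rw [mem_Md] at h3
          exact absurd ((Finset.mem_filter.1 h4).2.symm.trans h3.1) hk
        · rfl
        · rfl
      rw [this, map_zero]
      exact Submodule.zero_mem _

/-- The initial valid structure. -/
theorem initial (hl : 0 < l) (m : ℕ) (S : Finset (MonoidAlgebra K (FreeGroup X)))
    (hS : S.card ≤ m)
    (hωI : (MonoidAlgebra.single (uu z l) 1 - 1 : MonoidAlgebra K (FreeGroup X)) ∈
      rI (S : Set (MonoidAlgebra K (FreeGroup X))))
    (htop : rI (S : Set (MonoidAlgebra K (FreeGroup X))) ≠ ⊤)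
    (hg : ∀ k, GW (MonoidAlgebra.single (uu z l) 1 - 1 : MonoidAlgebra K (FreeGroup X))
      (rI (S : Set (MonoidAlgebra K (FreeGroup X)))) k → m ≤ k) :
    ∃ (p : Fin (2 * l) → ℕ) (R : Submodule K (Fin (2 * l) → K)),
      Valid (cz z l hz) (MonoidAlgebra.single (uu z l) 1 - 1 : MonoidAlgebra K (FreeGroup X))
        (brp K (2 * l) (az z)) m p R := by
  have hωT : SuppOn (TT z l : Set (FreeGroup X))
      (MonoidAlgebra.single (uu z l) 1 - 1 : MonoidAlgebra K (FreeGroup X)) := by
    intro g hg
    rw [MonoidAlgebra.coeff_sub, Finsupp.sub_apply, MonoidAlgebra.coeff_single,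
      MonoidAlgebra.one_def, MonoidAlgebra.coeff_single, Finsupp.single_apply,
      Finsupp.single_apply] at hg
    by_cases h1 : uu z l = g
    · exact Finset.mem_image.2 ⟨l, Finset.mem_range.2 (by omega), h1⟩
    · by_cases h2 : (1 : FreeGroup X) = g
      · exact Finset.mem_image.2 ⟨0, Finset.mem_range.2 (by omega), h2⟩
      · rw [if_neg h1, if_neg h2] at hg
        exact absurd (sub_self 0) hg
  obtain ⟨R', t, hR, hω, hI, hcard⟩ := gen_restrict S _ hωI (TT z l) (TT_closed z l hz) hωT
  have hfin : FiniteDimensional K R' := by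
    have h1 : R' ≤ KT K (TT z l : Set (FreeGroup X)) := hR
    exact aux_fin_of_le _ _ h1
  have hω' : (MonoidAlgebra.single (pth (az z) (2 * l)) 1 - 1 : MonoidAlgebra K (FreeGroup X)) ∈
      R' := by rw [pth_even]; exact hω
  have h1 := le_finrank_Wd z l hz hR hω'
  have h2 := finrank_R0_le z l hz (R' := R')
  have h3 := finrank_R1_lt z l hz hl hω
  have h4 := Id_R0 z l hz hl hR hω
  have h5 : (finrank K R' : ℤ) - ∑ y : X, (finrank K (Ex R' (FreeGroup.of y)) : ℤ) = hh R' := rfl
  have h6 : ((∑ y : X, finrank K (Ex R' (FreeGroup.of y)) : ℕ) : ℤ) =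
      ∑ y : X, (finrank K (Ex R' (FreeGroup.of y)) : ℤ) := by push_cast; rfl
  rw [← h5, ← h6] at hcard
  refine ⟨p0 l, R0 z l R', ⟨kinded_p0 z l hz, graded_p0 z l, ?_, ?_, ?_⟩⟩
  · omega
  · intro k hk
    rw [h4] at hk
    have h7 : m ≤ k + t.card := by
      apply hg
      obtain ⟨s, hs, hsI⟩ := hk
      classical
      refine ⟨s ∪ t, (Finset.card_union_le _ _).trans (by omega), ?_⟩
      rw [← hI]
      apply le_antisymm
      · refine rI_le ?_
        intro b hb
        rw [Finset.coe_union] at hb
        rcases Set.mem_insert_iff.1 hb with rfl | hb | hb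
        · exact subset_rI (Or.inl hω)
        · have h8 : b ∈ rI (R' : Set (MonoidAlgebra K (FreeGroup X))) := by
            rw [← hsI]
            exact subset_rI (Set.mem_insert_of_mem _ hb)
          exact Submodule.span_mono Set.subset_union_left h8
        · exact subset_rI (Or.inr hb)
      · refine rI_le ?_
        intro b hb
        rcases hb with hb | hb
        · have h8 : b ∈ rI (insert (MonoidAlgebra.single (uu z l) 1 - 1 :
              MonoidAlgebra K (FreeGroup X)) (s : Set (MonoidAlgebra K (FreeGroup X)))) := by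
            rw [hsI]
            exact subset_rI hb
          refine Submodule.span_mono ?_ h8
          rw [Finset.coe_union]
          exact Set.insert_subset_insert Set.subset_union_left
        · refine subset_rI (Set.mem_insert_of_mem _ ?_)
          rw [Finset.coe_union]
          exact Or.inr hb
    omega
  · rw [h4]
    intro h8
    apply htop
    rw [eq_top_iff, ← h8, ← hI]
    exact Submodule.span_mono Set.subset_union_left

end Init

end Pool.Agent.Helper673_PQ
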