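import Mathlib
import Pool.Agent.Helper673_PQ.Main2

/-!
# The K-primitivity rank of a word equals its primitivity rank, for every field K

`F = FreeGroup (Fin r)`, `K` a field in any universe, `A = MonoidAlgebra K F` the group algebra.
Right ideals of `A` are the submodules of `A` over the opposite ring.

* `IsPrimitive w`: some free basis of the group contains `w`.
* `primRank w`: the least rank of a subgroup of `F` which contains `w` and in which `w` is not
  primitive (`⊤` if there is none).
* `IsPrimitiveIn I f`: some basis of the right ideal `I`, as a right module, contains `f`.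
* `fieldPrimRank K w`: the least rank of a proper right ideal of `A` which contains `w - 1` and in
  which `w - 1` is not primitive (`⊤` if there is none).
-/

set_option autoImplicit false

namespace Pool.Agent.Results.MP_b8b21d_al.AllFields

open Module

universe u

/-- `w` is primitive in the (free) group `H`: some free basis of `H` contains it. -/
def IsPrimitive {H : Type} [Group H] (w : H) : Prop :=
  ∃ (ι : Type) (b : FreeGroupBasis ι H), w ∈ Set.range b

/-- The primitivity rank of `w`: the minimum of the ranks of the subgroups `H` of the free group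
which contain `w` and in which `w` is not primitive; `⊤` if there is no such `H`. -/
noncomputable def primRank {r : ℕ} (w : FreeGroup (Fin r)) : ℕ∞ :=
  sInf {n : ℕ∞ | ∃ (H : Subgroup (FreeGroup (Fin r))) (hw : w ∈ H),
    (∃ (ι : Type) (_ : FreeGroupBasis ι H), ENat.card ι = n) ∧ ¬ IsPrimitive (⟨w, hw⟩ : H)}

/-- `f` is primitive in the right ideal `I`: it belongs to some basis of `I` as a right module. -/
def IsPrimitiveIn {A : Type u} [Ring A] (I : Submodule Aᵐᵒᵖ A) (f : A) : Prop :=
  ∃ (ι : Type u) (b : Basis ι Aᵐᵒᵖ I) (i : ι), (b i : A) = f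

/-- The `K`-primitivity rank of `w`: the minimum of the ranks of the proper right ideals `I` of the
group algebra over `K` which contain `w - 1` and in which `w - 1` is not primitive; `⊤` if there is
no such `I`. -/
noncomputable def fieldPrimRank (K : Type u) [Field K] {r : ℕ} (w : FreeGroup (Fin r)) : ℕ∞ :=
  sInf {n : ℕ∞ | ∃ I : Submodule (MonoidAlgebra K (FreeGroup (Fin r)))ᵐᵒᵖ
      (MonoidAlgebra K (FreeGroup (Fin r))),
    I ≠ ⊤ ∧ MonoidAlgebra.single w 1 - 1 ∈ I ∧
    (∃ (ι : Type u) (_ : Basis ι (MonoidAlgebra K (FreeGroup (Fin r)))ᵐᵒᵖ I),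
      ENat.card ι = n) ∧
    ¬ IsPrimitiveIn I (MonoidAlgebra.single w 1 - 1)}

/-- the trivial element is not primitive in the trivial subgroup, which has rank zero -/
theorem primRank_one {r : ℕ} : primRank (1 : FreeGroup (Fin r)) = 0 := by
  refine le_antisymm (sInf_le ⟨⊥, Subgroup.one_mem _, ⟨Empty, ?_, ?_⟩, ?_⟩) (zero_le)
  · exact ⟨(MulEquiv.ofUnique : (⊥ : Subgroup (FreeGroup (Fin r))) ≃* FreeGroup Empty)⟩
  · simp
  · rintro ⟨ι, b, i, hi⟩
    have h1 : b i = 1 := Subsingleton.elim _ _
    have h2 := congrArg b.repr h1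
    rw [map_one] at h2
    have h3 : b.repr (b i) = FreeGroup.of i := by
      show b.repr (b.repr.symm (FreeGroup.of i)) = _
      exact MulEquiv.apply_symm_apply _ _
    rw [h3] at h2
    exact FreeGroup.of_ne_one i h2

/-- **The primitivity rank over a field**: for every field `K` (of any size, in any universe), every
finite rank `r` and every element `w` of the free group of rank `r`, the `K`-primitivity rank of `w`
equals the primitivity rank of `w`. -/
theorem result (K : Type u) [Field K] (r : ℕ) (w : FreeGroup (Fin r)) :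
    fieldPrimRank K w = primRank w := by
  apply le_antisymm
  · refine le_sInf ?_
    rintro n ⟨H, hw, ⟨ι, b, rfl⟩, hnp⟩
    rcases finite_or_infinite ι with hι | hι
    · obtain ⟨I, hI, hwI, ⟨c⟩, hnpI⟩ :=
        Pool.Agent.Helper673_PQ.ideal_of_subgroup (K := K) H w hw b hnp
      exact sInf_le ⟨I, hI, hwI, ⟨ULift.{u} ι, c.reindex Equiv.ulift.symm, by
        simp⟩, hnpI⟩
    · rw [ENat.card_eq_top_of_infinite]
      exact le_top
  · refine le_sInf ?_
    rintro n ⟨I, hI, hwI, ⟨ι, b, rfl⟩, hnp⟩
    by_cases hw1 : w = 1
    · rw [hw1, primRank_one]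
      exact zero_le
    rcases finite_or_infinite ι with hι | hι
    · obtain ⟨H, hw, ⟨t, ht, htc⟩, hnpH⟩ :=
        Pool.Agent.Helper673_PQ.subgroup_of_ideal (K := K) w hw1 I hI hwI
          (b.reindex (Finite.equivFin ι)) hnp
      have hfree : IsFreeGroup H := inferInstance
      obtain ⟨κ, ⟨c⟩⟩ := hfree.nonempty_basis
      obtain ⟨hκ, hκc⟩ := Pool.Agent.Helper166_PQ.card_basis_le c t htc
      have hle : primRank w ≤ ENat.card κ := sInf_le ⟨H, hw, ⟨κ, c, rfl⟩, hnpH⟩
      refine hle.trans ?_
      rw [Nat.card_fin] at ht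
      rw [ENat.card_eq_coe_natCard, ENat.card_eq_coe_natCard]
      exact_mod_cast hκc.trans ht
    · rw [ENat.card_eq_top_of_infinite]
      exact le_top

end Pool.Agent.Results.MP_b8b21d_al.AllFields
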